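import Pool.Agent.Q211.Lotto.Line

/-! The aggregate of an equilibrium is atomless with concave distribution function. -/

open MeasureTheory Set ProbabilityTheory Filter Topology

namespace Pool.Agent.Q211.Lotto

lemma real_Iic (g : Measure ℝ) [IsFiniteMeasure g] (x : ℝ) :
    g.real (Iic x) = g.real (Iio x) + g.real {x} := by
  rw [← Iio_union_right, measureReal_union (by simp) (measurableSet_singleton x)]

lemma payoff_step (g : Measure ℝ) [IsFiniteMeasure g] {x y : ℝ} (h : x < y) :
    payoff g x + g.real {x} / 2 ≤ payoff g y := by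
  have h1 : g.real (Iic x) ≤ g.real (Iio y) := measureReal_mono (Iic_subset_Iio.2 h)
  have h2 : 0 ≤ g.real {y} := measureReal_nonneg
  rw [real_Iic] at h1
  unfold payoff
  linarith

lemma payoff_mono (g : Measure ℝ) [IsFiniteMeasure g] : Monotone (payoff g) := by
  intro x y hxy
  rcases eq_or_lt_of_le hxy with h | h
  · rw [h]
  · have := payoff_step g h
    have h2 : 0 ≤ g.real {x} := measureReal_nonneg
    linarith

lemma payoff_bdd (g : Measure ℝ) [IsProbabilityMeasure g] (x : ℝ) : |payoff g x| ≤ 1 := by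
  have h1 : 0 ≤ g.real {x} := measureReal_nonneg
  have h2 : 0 ≤ g.real (Iio x) := measureReal_nonneg
  have h3 : g.real (Iic x) ≤ 1 := measureReal_le_one
  rw [real_Iic] at h3
  unfold payoff
  rw [abs_le]
  constructor <;> linarith

variable {Ω : Type*} [MeasurableSpace Ω] {P : Measure Ω} [IsProbabilityMeasure P] {b : Ω → ℝ}
  {κ : Kernel Ω ℝ} [IsMarkovKernel κ]

lemma exists_touch (hb : ∀ᵐ ω ∂P, 0 < b ω) (h : IsNash P b κ) {A : Set ℝ} (hA : MeasurableSet A)
    (hgA : (κ ∘ₘ P) A ≠ 0) :
    ∃ s ∈ A, 0 ≤ s ∧ ∃ lam : ℝ, ∀ x, 0 ≤ x →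
      payoff (κ ∘ₘ P) x ≤ payoff (κ ∘ₘ P) s + lam * (x - s) := by
  set g := κ ∘ₘ P with hg
  have hfr : ∃ᶠ ω in ae P, κ ω A ≠ 0 := by
    intro hcon
    apply hgA
    rw [hg, Measure.bind_apply hA κ.aemeasurable]
    rw [lintegral_eq_zero_iff (κ.measurable_coe hA)]
    filter_upwards [hcon] with ω hω
    simpa using hω
  obtain ⟨ω, hω, hbω, hst, hopt⟩ := (hfr.and_eventually (hb.and (h.strat.and h.opt))).exists
  have hmeas : Measurable (payoff g) := (payoff_mono g).measurable
  obtain ⟨lam, hl⟩ := exists_line (payoff g) (∫ x, payoff g x ∂(κ ω)) (b ω) hbω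
    (by simpa using hopt _ (isStrategy_dirac hbω.le))
    (by
      intro y x hy hyb hx
      have := hopt _ (isStrategy_twoPt hy hyb hx)
      rw [integral_twoPt hyb hx, div_le_iff₀ (by linarith)] at this
      linarith)
  have hc := ae_contact hmeas (payoff_bdd g) hst hl le_rfl
  have hfr2 : ∃ᶠ x in ae (κ ω), x ∈ A := frequently_ae_mem_iff.2 hω
  obtain ⟨s, hsA, hs0, hs⟩ := (hfr2.and_eventually hc).exists
  refine ⟨s, hsA, hs0, lam, fun x hx => ?_⟩
  have := hl x hx
  rw [hs]
  linarith

lemma no_atom (hb : ∀ᵐ ω ∂P, 0 < b ω) (h : IsNash P b κ) (a : ℝ) : (κ ∘ₘ P) {a} = 0 := by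
  by_contra hne
  obtain ⟨s, hs, -, lam, hl⟩ := exists_touch hb h (measurableSet_singleton a) hne
  rw [mem_singleton_iff] at hs
  subst hs
  set g := κ ∘ₘ P with hg
  have hm : 0 < g.real {s} := by
    rw [measureReal_def]
    exact ENNReal.toReal_pos hne (measure_ne_top _ _)
  have hs0 : 0 ≤ s := by
    by_contra hneg
    push Not at hneg
    apply hne
    have h0 : g (Iio 0) = 0 := by
      rw [hg, Measure.bind_apply measurableSet_Iio κ.aemeasurable,
        lintegral_eq_zero_iff (κ.measurable_coe measurableSet_Iio)]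
      filter_upwards [h.strat] with ω hω
      simpa using hω.nonneg
    exact measure_mono_null (by simpa using hneg) h0
  set d : ℝ := g.real {s} / (4 * (|lam| + 1)) with hd
  have hd0 : 0 < d := by positivity
  have h1 := payoff_step g (show s < s + d by linarith)
  have h2 := hl (s + d) (by linarith)
  have h3 : lam * (s + d - s) ≤ g.real {s} / 4 := by
    have : lam * d ≤ (|lam| + 1) * d := by
      apply mul_le_mul_of_nonneg_right _ hd0.le
      linarith [le_abs_self lam]
    have h4 : (|lam| + 1) * d = g.real {s} / 4 := by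
      rw [hd]
      have : |lam| + 1 ≠ 0 := by positivity
      field_simp
    calc lam * (s + d - s) = lam * d := by ring
      _ ≤ _ := by linarith
  linarith

lemma payoff_eq (g : Measure ℝ) [IsFiniteMeasure g] (h0 : ∀ a, g {a} = 0) (x : ℝ) :
    payoff g x = g.real (Iic x) := by
  rw [real_Iic]
  unfold payoff
  simp [measureReal_def, h0]

lemma continuous_G (g : Measure ℝ) [IsProbabilityMeasure g] (h0 : ∀ a, g {a} = 0) :
    Continuous fun x => g.real (Iic x) := by
  have : (fun x => g.real (Iic x)) = fun x => cdf g x := by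
    funext x; rw [cdf_eq_real]
  rw [this, continuous_iff_continuousAt]
  intro x
  have h1 := StieltjesFunction.measure_singleton (cdf g) x
  rw [measure_cdf, h0] at h1
  have h2 := ENNReal.ofReal_eq_zero.1 h1.symm
  have h3 : Function.leftLim (cdf g) x ≤ cdf g x := (cdf g).mono.leftLim_le le_rfl
  apply ((cdf g).mono.continuousAt_iff_leftLim_eq_rightLim).2
  rw [StieltjesFunction.rightLim_eq]
  linarith

omit [IsProbabilityMeasure P] [IsMarkovKernel κ] in
lemma G_nonpos (h : IsNash P b κ) (h0 : ∀ a, (κ ∘ₘ P) {a} = 0) {x : ℝ} (hx : x ≤ 0) :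
    (κ ∘ₘ P).real (Iic x) = 0 := by
  have h1 : (κ ∘ₘ P) (Iio 0) = 0 := by
    rw [Measure.bind_apply measurableSet_Iio κ.aemeasurable,
      lintegral_eq_zero_iff (κ.measurable_coe measurableSet_Iio)]
    filter_upwards [h.strat] with ω hω
    simpa using hω.nonneg
  rw [measureReal_def, measure_mono_null (Iic_subset_Iic.2 hx), ENNReal.toReal_zero]
  rw [← Iio_union_right, measure_union_null h1 (h0 0)]

/-- three-point form of concavity on `[0, ∞)`. -/
def Conc (G : ℝ → ℝ) : Prop :=
  ∀ x y z, 0 ≤ x → x < y → y < z → (z - y) * G x + (y - x) * G z ≤ (z - x) * G y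

lemma conc_G (hb : ∀ᵐ ω ∂P, 0 < b ω) (h : IsNash P b κ) :
    Conc fun x => (κ ∘ₘ P).real (Iic x) := by
  intro x y z hx hxy hyz
  have h0 := no_atom hb h
  set g := κ ∘ₘ P with hg
  have hcont := continuous_G g h0
  set G : ℝ → ℝ := fun x => g.real (Iic x) with hG
  have hmono : Monotone G := fun u v huv => measureReal_mono (Iic_subset_Iic.2 huv)
  show (z - y) * G x + (y - x) * G z ≤ (z - x) * G y
  apply le_of_forall_pos_le_add
  intro e he
  set e' := e / (z - x) with he'
  have hzx : 0 < z - x := by linarith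
  have he'0 : 0 < e' := by positivity
  have hee : (z - x) * e' = e := by rw [he']; field_simp
  rcases le_or_gt (G z) (G y + e') with hc | hc
  · have h1 : G x ≤ G y := hmono hxy.le
    nlinarith [mul_le_mul_of_nonneg_left h1 (show (0:ℝ) ≤ z - y by linarith),
      mul_le_mul_of_nonneg_left hc (show (0:ℝ) ≤ y - x by linarith),
      mul_pos he'0 (show (0:ℝ) < z - y by linarith)]
  · obtain ⟨s1, hs1, hs1G⟩ := intermediate_value_Icc hyz.le hcont.continuousOn
      (show G y + e' ∈ Icc (G y) (G z) from ⟨by linarith, hc.le⟩)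
    have hgA : g (Ioc y s1) ≠ 0 := by
      intro hzero
      have h1 : G s1 = G y := by
        simp only [hG]
        rw [← Iic_union_Ioc_eq_Iic hs1.1, measureReal_union (by
          rw [Set.disjoint_left]; intro a ha hb; exact absurd hb.1 (not_lt.2 ha)) measurableSet_Ioc]
        simp [measureReal_def, hzero]
      rw [h1] at hs1G
      linarith
    obtain ⟨s, hs, hs0, lam, hl⟩ := exists_touch hb h measurableSet_Ioc hgA
    have hl' : ∀ x, 0 ≤ x → G x ≤ G s + lam * (x - s) := by
      intro w hw
      have := hl w hw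
      rw [← hg, payoff_eq g h0, payoff_eq g h0] at this
      exact this
    have h1 := hl' x hx
    have h2 := hl' z (by linarith)
    have h3 : G s ≤ G y + e' := by
      rw [← hs1G]; exact hmono hs.2
    have h4 : G x ≤ G z := hmono (by linarith)
    have hsz : s ≤ z := hs.2.trans hs1.2
    have h5 : (z - s) * G x + (s - x) * G z ≤ (z - x) * G s := by
      have e1 := mul_le_mul_of_nonneg_left h1 (show (0:ℝ) ≤ z - s by linarith)
      have e2 := mul_le_mul_of_nonneg_left h2 (show (0:ℝ) ≤ s - x by linarith [hs.1])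
      nlinarith
    have h6 : 0 ≤ (s - y) * (G z - G x) := mul_nonneg (by linarith [hs.1]) (by linarith)
    have h7 := mul_le_mul_of_nonneg_left h3 hzx.le
    nlinarith

/-- Jensen for a three-point concave function. -/
lemma Conc.line {G : ℝ → ℝ} (hG : Conc G) {c : ℝ} (hc : 0 < c) :
    ∃ lam : ℝ, ∀ x, 0 ≤ x → G x ≤ G c + lam * (x - c) := by
  apply exists_line G (G c) c hc le_rfl
  intro y x hy hyc hx
  exact hG y c x hy hyc hx

end Pool.Agent.Q211.Lotto
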