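import Mathlib

/-! Population Lotto game: definitions. -/

open MeasureTheory Set ProbabilityTheory

namespace Pool.Agent.Q211.Lotto

/-- The expected payoff of the deterministic draw `x` against an opponent's draw with law `g`:
the probability that the opponent's draw is smaller, plus half the probability of a tie. -/
noncomputable def payoff (g : Measure ℝ) (x : ℝ) : ℝ := g.real (Iio x) + g.real {x} / 2

/-- An admissible strategy of a player with budget `b`: a probability distribution on `[0, ∞)`
with (finite) mean exactly `b`. -/
structure IsStrategy (b : ℝ) (μ : Measure ℝ) : Prop where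
  prob : IsProbabilityMeasure μ
  nonneg : μ (Iio 0) = 0
  integrable : Integrable (fun x : ℝ => x) μ
  mean : ∫ x, x ∂μ = b

/-- Nash equilibrium of the population Lotto game.  The population is a probability space
`(Ω, P)`, player `ω` has budget `b ω` and uses the distribution `κ ω`; the aggregate strategy is
the mixture `κ ∘ₘ P`.  Almost every player uses an admissible strategy which maximises the
expected payoff against the aggregate among all admissible strategies for the same budget. -/
structure IsNash {Ω : Type*} [MeasurableSpace Ω] (P : Measure Ω) (b : Ω → ℝ)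
    (κ : Kernel Ω ℝ) : Prop where
  strat : ∀ᵐ ω ∂P, IsStrategy (b ω) (κ ω)
  opt : ∀ᵐ ω ∂P, ∀ μ : Measure ℝ, IsStrategy (b ω) μ →
    ∫ x, payoff (κ ∘ₘ P) x ∂μ ≤ ∫ x, payoff (κ ∘ₘ P) x ∂(κ ω)

end Pool.Agent.Q211.Lotto
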