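import Pool.Agent.Q211.Lotto.Uniq

open MeasureTheory Set ProbabilityTheory Filter Topology

namespace Pool.Agent.Q211.Lotto

section one
variable {Ω : Type*} [MeasurableSpace Ω] {P : Measure Ω} [IsProbabilityMeasure P] {b : Ω → ℝ}
  {κ : Kernel Ω ℝ} [IsMarkovKernel κ]

lemma meas_G (g : Measure ℝ) [IsFiniteMeasure g] : Measurable fun x => g.real (Iic x) :=
  Monotone.measurable fun _ _ huv => measureReal_mono (Iic_subset_Iic.2 huv)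

lemma bdd_G (g : Measure ℝ) [IsProbabilityMeasure g] (x : ℝ) : |g.real (Iic x)| ≤ 1 := by
  rw [abs_of_nonneg measureReal_nonneg]
  exact measureReal_le_one

/-- against its own aggregate, an equilibrium strategy earns exactly `G (b)`. -/
lemma own_value (hb : ∀ᵐ ω ∂P, 0 < b ω) (h : IsNash P b κ) :
    ∀ᵐ ω ∂P, ∫ x, (κ ∘ₘ P).real (Iic x) ∂(κ ω) = (κ ∘ₘ P).real (Iic (b ω)) := by
  have h0 := no_atom hb h
  have hc := conc_G hb h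
  filter_upwards [hb, h.strat, h.opt] with ω hω hst hopt
  apply le_antisymm
  · obtain ⟨lam, hl⟩ := hc.line hω
    exact integral_le_line (meas_G _) (bdd_G _) hst hl
  · have := hopt _ (isStrategy_dirac hω.le)
    simp only [integral_dirac, payoff_eq _ h0] at this
    exact this

end one

variable {Ω₁ : Type*} [MeasurableSpace Ω₁] {P₁ : Measure Ω₁} [IsProbabilityMeasure P₁]
  {b₁ : Ω₁ → ℝ} {κ₁ : Kernel Ω₁ ℝ} [IsMarkovKernel κ₁]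
  {Ω₂ : Type*} [MeasurableSpace Ω₂] {P₂ : Measure Ω₂} [IsProbabilityMeasure P₂]
  {b₂ : Ω₂ → ℝ} {κ₂ : Kernel Ω₂ ℝ} [IsMarkovKernel κ₂]

/-- average of `G (b)` over the population is one half. -/
lemma half {Ω : Type*} [MeasurableSpace Ω] {P : Measure Ω} [IsProbabilityMeasure P] {b : Ω → ℝ}
    {κ : Kernel Ω ℝ} [IsMarkovKernel κ] (hb : ∀ᵐ ω ∂P, 0 < b ω) (h : IsNash P b κ) :
    ∫ ω, (κ ∘ₘ P).real (Iic (b ω)) ∂P = 1 / 2 := by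
  have h0 := no_atom hb h
  have h1 := sum_one (κ ∘ₘ P) (κ ∘ₘ P) h0
  have h2 := (int_comp (P := P) (κ := κ) (fun x => (κ ∘ₘ P).real (Iic x)) (meas_G _) (bdd_G _)).2
  have h3 : ∫ ω, ∫ x, (κ ∘ₘ P).real (Iic x) ∂(κ ω) ∂P = ∫ ω, (κ ∘ₘ P).real (Iic (b ω)) ∂P :=
    integral_congr_ae (own_value hb h)
  rw [← h3, ← h2]
  linarith

/-- strategies of population 1 against the aggregate of population 2: at most one half. -/
lemma cross_le (hm₁ : Measurable b₁) (hm₂ : Measurable b₂) (hb₁ : ∀ᵐ ω ∂P₁, 0 < b₁ ω)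
    (hb₂ : ∀ᵐ ω ∂P₂, 0 < b₂ ω) (hB : P₁.map b₁ = P₂.map b₂) (h₁ : IsNash P₁ b₁ κ₁)
    (h₂ : IsNash P₂ b₂ κ₂) :
    (∀ᵐ ω ∂P₁, ∫ x, (κ₂ ∘ₘ P₂).real (Iic x) ∂(κ₁ ω) ≤ (κ₂ ∘ₘ P₂).real (Iic (b₁ ω))) ∧
      ∫ ω, (κ₂ ∘ₘ P₂).real (Iic (b₁ ω)) ∂P₁ = 1 / 2 ∧
      Integrable (fun ω => (κ₂ ∘ₘ P₂).real (Iic (b₁ ω))) P₁ := by
  have hc := conc_G hb₂ h₂
  refine ⟨?_, ?_, ?_⟩
  · filter_upwards [hb₁, h₁.strat] with ω hω hst
    obtain ⟨lam, hl⟩ := hc.line hω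
    exact integral_le_line (meas_G _) (bdd_G _) hst hl
  · have e1 : ∫ ω, (κ₂ ∘ₘ P₂).real (Iic (b₁ ω)) ∂P₁ =
        ∫ y, (κ₂ ∘ₘ P₂).real (Iic y) ∂(P₁.map b₁) :=
      (integral_map hm₁.aemeasurable (meas_G _).aestronglyMeasurable).symm
    have e2 : ∫ ω, (κ₂ ∘ₘ P₂).real (Iic (b₂ ω)) ∂P₂ =
        ∫ y, (κ₂ ∘ₘ P₂).real (Iic y) ∂(P₂.map b₂) :=
      (integral_map hm₂.aemeasurable (meas_G _).aestronglyMeasurable).symm
    rw [e1, hB, ← e2, half hb₂ h₂]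
  · exact Integrable.of_bound ((meas_G _).comp hm₁).aestronglyMeasurable 1
      (Eventually.of_forall fun ω => bdd_G _ _)

lemma cross_eq (hm₁ : Measurable b₁) (hm₂ : Measurable b₂) (hb₁ : ∀ᵐ ω ∂P₁, 0 < b₁ ω)
    (hb₂ : ∀ᵐ ω ∂P₂, 0 < b₂ ω) (hB : P₁.map b₁ = P₂.map b₂) (h₁ : IsNash P₁ b₁ κ₁)
    (h₂ : IsNash P₂ b₂ κ₂) :
    ∀ᵐ ω ∂P₁, (κ₂ ∘ₘ P₂).real (Iic (b₁ ω)) ≤ ∫ x, (κ₂ ∘ₘ P₂).real (Iic x) ∂(κ₁ ω) := by
  obtain ⟨a1, a2, a3⟩ := cross_le hm₁ hm₂ hb₁ hb₂ hB h₁ h₂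
  obtain ⟨c1, c2, c3⟩ := cross_le hm₂ hm₁ hb₂ hb₁ hB.symm h₂ h₁
  obtain ⟨i1, i2⟩ := int_comp (P := P₁) (κ := κ₁) (fun x => (κ₂ ∘ₘ P₂).real (Iic x))
    (meas_G _) (bdd_G _)
  obtain ⟨j1, j2⟩ := int_comp (P := P₂) (κ := κ₂) (fun x => (κ₁ ∘ₘ P₁).real (Iic x))
    (meas_G _) (bdd_G _)
  have hs := sum_one (κ₁ ∘ₘ P₁) (κ₂ ∘ₘ P₂) (no_atom hb₂ h₂)
  rw [i2, j2] at hs
  have hle2 : ∫ ω, ∫ x, (κ₁ ∘ₘ P₁).real (Iic x) ∂(κ₂ ω) ∂P₂ ≤ 1 / 2 := by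
    rw [← c2]; exact integral_mono_ae j1 c3 c1
  have hge1 : 1 / 2 ≤ ∫ ω, ∫ x, (κ₂ ∘ₘ P₂).real (Iic x) ∂(κ₁ ω) ∂P₁ := by linarith
  have hnn : 0 ≤ᵐ[P₁] fun ω => (κ₂ ∘ₘ P₂).real (Iic (b₁ ω)) -
      ∫ x, (κ₂ ∘ₘ P₂).real (Iic x) ∂(κ₁ ω) := by
    filter_upwards [a1] with ω hω
    simpa using hω
  have hz : ∫ ω, ((κ₂ ∘ₘ P₂).real (Iic (b₁ ω)) -
      ∫ x, (κ₂ ∘ₘ P₂).real (Iic x) ∂(κ₁ ω)) ∂P₁ = 0 := by
    apply le_antisymm _ (integral_nonneg_of_ae hnn)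
    rw [integral_sub a3 i1, a2]
    linarith
  have := (integral_eq_zero_iff_of_nonneg_ae hnn (a3.sub i1)).1 hz
  filter_upwards [this] with ω hω
  simp only [Pi.zero_apply] at hω
  linarith

/-- where one of the two distribution functions is not locally affine, they agree. -/
lemma agree (hm₁ : Measurable b₁) (hm₂ : Measurable b₂) (hb₁ : ∀ᵐ ω ∂P₁, 0 < b₁ ω)
    (hb₂ : ∀ᵐ ω ∂P₂, 0 < b₂ ω) (hB : P₁.map b₁ = P₂.map b₂) (h₁ : IsNash P₁ b₁ κ₁)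
    (h₂ : IsNash P₂ b₂ κ₂) {x : ℝ}
    (hna : ¬ LocAff (fun x => (κ₂ ∘ₘ P₂).real (Iic x)) x) :
    (κ₁ ∘ₘ P₁).real (Iic x) = (κ₂ ∘ₘ P₂).real (Iic x) := by
  have hc := conc_G hb₂ h₂
  have e1 := G_eq_budget hc (meas_G _) (bdd_G _) hm₁ hb₁ h₁
    (cross_eq hm₁ hm₂ hb₁ hb₂ hB h₁ h₂) hna
  have e2 := G_eq_budget hc (meas_G _) (bdd_G _) hm₂ hb₂ h₂
    ((own_value hb₂ h₂).mono fun ω hω => hω.ge) hna
  have e3 : P₁ {ω | b₁ ω < x} = P₂ {ω | b₂ ω < x} := by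
    have f1 : P₁ {ω | b₁ ω < x} = (P₁.map b₁) (Iio x) := by
      rw [Measure.map_apply hm₁ measurableSet_Iio]; rfl
    have f2 : P₂ {ω | b₂ ω < x} = (P₂.map b₂) (Iio x) := by
      rw [Measure.map_apply hm₂ measurableSet_Iio]; rfl
    rw [f1, f2, hB]
  rw [measureReal_def, measureReal_def, e1, e2, e3]

lemma no_gt {G₁ G₂ : ℝ → ℝ} (c₁ : Continuous G₁) (c₂ : Continuous G₂)
    (z₁ : ∀ x, x ≤ 0 → G₁ x = 0) (z₂ : ∀ x, x ≤ 0 → G₂ x = 0)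
    (t₁ : Tendsto G₁ atTop (𝓝 1)) (t₂ : Tendsto G₂ atTop (𝓝 1))
    (hloc : ∀ x, G₁ x ≠ G₂ x → LocAff G₁ x ∧ LocAff G₂ x) (x₀ : ℝ) : G₁ x₀ ≤ G₂ x₀ := by
  by_contra hgt
  push Not at hgt
  set D : ℝ → ℝ := fun x => G₁ x - G₂ x with hD
  have cD : Continuous D := c₁.sub c₂
  have hD0 : 0 < D x₀ := by simp only [hD]; linarith
  have tD : Tendsto D atTop (𝓝 0) := by simpa using t₁.sub t₂
  have hx₀ : 0 < x₀ := by
    by_contra hneg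
    push Not at hneg
    rw [z₁ x₀ hneg, z₂ x₀ hneg] at hgt
    exact lt_irrefl _ hgt
  obtain ⟨R, hR⟩ := (tD.eventually_lt_const hD0).exists_forall_of_atTop
  set K : Set ℝ := Icc 0 (max R x₀) with hK
  have hKc : IsCompact K := isCompact_Icc
  obtain ⟨m, hmK, hmax⟩ := hKc.exists_isMaxOn (f := D)
    ⟨x₀, hx₀.le, le_max_right _ _⟩ cD.continuousOn
  have hmx : D x₀ ≤ D m := hmax (show x₀ ∈ K from ⟨hx₀.le, le_max_right _ _⟩)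
  have hall : ∀ y, 0 ≤ y → D y ≤ D m := by
    intro y hy
    rcases le_or_gt y (max R x₀) with h | h
    · exact hmax (show y ∈ K from ⟨hy, h⟩)
    · exact ((hR y ((le_max_left _ _).trans h.le)).le).trans hmx
  set A : Set ℝ := K ∩ {x | D x = D m} with hA
  have hAc : IsCompact A := hKc.inter_right (isClosed_eq cD continuous_const)
  have hAne : A.Nonempty := ⟨m, hmK, rfl⟩
  have hs := hAc.sInf_mem hAne
  set s := sInf A with hsdef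
  have hsD : D s = D m := hs.2
  have hspos : 0 < s := by
    rcases eq_or_lt_of_le hs.1.1 with h | h
    · exfalso
      have : D s = 0 := by
        simp only [hD]
        rw [← h, z₁ 0 le_rfl, z₂ 0 le_rfl, sub_zero]
      linarith
    · exact h
  have hne : G₁ s ≠ G₂ s := by
    intro h
    have : D s = 0 := by simp only [hD]; linarith
    linarith
  obtain ⟨⟨e₁, he₁, l₁, hl₁⟩, ⟨e₂, he₂, l₂, hl₂⟩⟩ := hloc s hne
  set d := min (min e₁ e₂) s / 2 with hd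
  have hmin : 0 < min (min e₁ e₂) s := lt_min (lt_min he₁ he₂) hspos
  have hd0 : 0 < d := by positivity
  have hd1 : d < e₁ := by
    have := (min_le_left (min e₁ e₂) s).trans (min_le_left e₁ e₂)
    linarith
  have hd2 : d < e₂ := by
    have := (min_le_left (min e₁ e₂) s).trans (min_le_right e₁ e₂)
    linarith
  have hd3 : d < s := by
    have := min_le_right (min e₁ e₂) s
    linarith
  have ab1 : |s + d - s| = d := by rw [add_sub_cancel_left, abs_of_pos hd0]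
  have ab2 : |s - d - s| = d := by
    rw [show s - d - s = -d by ring, abs_neg, abs_of_pos hd0]
  have p1 : D (s + d) = D s + (l₁ - l₂) * d := by
    simp only [hD]
    rw [hl₁ (s + d) (by rw [ab1]; exact hd1), hl₂ (s + d) (by rw [ab1]; exact hd2)]
    ring
  have p2 : D (s - d) = D s - (l₁ - l₂) * d := by
    simp only [hD]
    rw [hl₁ (s - d) (by rw [ab2]; exact hd1), hl₂ (s - d) (by rw [ab2]; exact hd2)]
    ring
  have q1 := hall (s + d) (by linarith)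
  have q2 := hall (s - d) (by linarith)
  have q3 : D (s - d) = D m := by
    apply le_antisymm q2
    rw [p2, hsD]
    rw [p1, hsD] at q1
    linarith
  have hmem : s - d ∈ A := ⟨⟨by linarith, by linarith [hs.1.2]⟩, q3⟩
  have := csInf_le hAc.bddBelow hmem
  linarith

theorem unique_aggregate (hm₁ : Measurable b₁) (hm₂ : Measurable b₂)
    (hb₁ : ∀ᵐ ω ∂P₁, 0 < b₁ ω) (hb₂ : ∀ᵐ ω ∂P₂, 0 < b₂ ω) (hB : P₁.map b₁ = P₂.map b₂)
    (h₁ : IsNash P₁ b₁ κ₁) (h₂ : IsNash P₂ b₂ κ₂) : κ₁ ∘ₘ P₁ = κ₂ ∘ₘ P₂ := by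
  have n₁ := no_atom hb₁ h₁
  have n₂ := no_atom hb₂ h₂
  have hloc : ∀ x, (κ₁ ∘ₘ P₁).real (Iic x) ≠ (κ₂ ∘ₘ P₂).real (Iic x) →
      LocAff (fun x => (κ₁ ∘ₘ P₁).real (Iic x)) x ∧
        LocAff (fun x => (κ₂ ∘ₘ P₂).real (Iic x)) x := by
    intro x hne
    constructor
    · by_contra hna
      exact hne (agree hm₂ hm₁ hb₂ hb₁ hB.symm h₂ h₁ hna).symm
    · by_contra hna
      exact hne (agree hm₁ hm₂ hb₁ hb₂ hB h₁ h₂ hna)
  have t₁ : Tendsto (fun x => (κ₁ ∘ₘ P₁).real (Iic x)) atTop (𝓝 1) := by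
    simp_rw [← cdf_eq_real]; exact tendsto_cdf_atTop _
  have t₂ : Tendsto (fun x => (κ₂ ∘ₘ P₂).real (Iic x)) atTop (𝓝 1) := by
    simp_rw [← cdf_eq_real]; exact tendsto_cdf_atTop _
  apply Measure.ext_of_Iic
  intro x
  have e : (κ₁ ∘ₘ P₁).real (Iic x) = (κ₂ ∘ₘ P₂).real (Iic x) := by
    apply le_antisymm
    · exact no_gt (continuous_G _ n₁) (continuous_G _ n₂) (fun x hx => G_nonpos h₁ n₁ hx)
        (fun x hx => G_nonpos h₂ n₂ hx) t₁ t₂ hloc x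
    · exact no_gt (continuous_G _ n₂) (continuous_G _ n₁) (fun x hx => G_nonpos h₂ n₂ hx)
        (fun x hx => G_nonpos h₁ n₁ hx) t₂ t₁ (fun x hx => (hloc x hx.symm).symm) x
  rw [measureReal_def, measureReal_def] at e
  exact (ENNReal.toReal_eq_toReal_iff' (measure_ne_top _ _) (measure_ne_top _ _)).1 e

end Pool.Agent.Q211.Lotto
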