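import Pool.Agent.Q211.Lotto.Defs

/-! Supporting lines, two-point strategies, contact points. -/

open MeasureTheory Set ProbabilityTheory Filter Topology

namespace Pool.Agent.Q211.Lotto

lemma exists_line (φ : ℝ → ℝ) (v b : ℝ) (hb : 0 < b) (h1 : φ b ≤ v)
    (h2 : ∀ y x, 0 ≤ y → y < b → b < x → (x - b) * φ y + (b - y) * φ x ≤ (x - y) * v) :
    ∃ lam : ℝ, ∀ x, 0 ≤ x → φ x ≤ v + lam * (x - b) := by
  set S : Set ℝ := (fun x => (φ x - v) / (x - b)) '' Ioi b with hS
  have key : ∀ y, 0 ≤ y → y < b → ∀ x, b < x → (φ x - v) / (x - b) ≤ (v - φ y) / (b - y) := by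
    intro y hy hyb x hx
    rw [div_le_div_iff₀ (by linarith) (by linarith)]
    nlinarith [h2 y x hy hyb hx]
  have hbdd : BddAbove S := by
    refine ⟨(v - φ 0) / (b - 0), ?_⟩
    rintro _ ⟨x, hx, rfl⟩
    exact key 0 le_rfl hb x hx
  have hne : S.Nonempty := ⟨_, b + 1, by simp, rfl⟩
  refine ⟨sSup S, fun x hx => ?_⟩
  rcases lt_trichotomy x b with h | h | h
  · have : sSup S ≤ (v - φ x) / (b - x) := by
      apply csSup_le hne
      rintro _ ⟨z, hz, rfl⟩
      exact key x hx h z hz
    rw [le_div_iff₀ (by linarith)] at this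
    linarith
  · subst h; simpa using h1
  · have : (φ x - v) / (x - b) ≤ sSup S := le_csSup hbdd ⟨x, h, rfl⟩
    rw [div_le_iff₀ (by linarith)] at this
    linarith

lemma isStrategy_dirac {b : ℝ} (hb : 0 ≤ b) : IsStrategy b (Measure.dirac b) where
  prob := inferInstance
  nonneg := by
    rw [Measure.dirac_apply' _ measurableSet_Iio]
    simp [hb]
  integrable := integrable_dirac (by simp)
  mean := by simp

/-- two-point distribution with mean `b` on `y < b < x`. -/
noncomputable def twoPt (y b x : ℝ) : Measure ℝ :=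
  ENNReal.ofReal ((x - b) / (x - y)) • Measure.dirac y
    + ENNReal.ofReal ((b - y) / (x - y)) • Measure.dirac x

lemma integral_twoPt {y b x : ℝ} (hy : y < b) (hx : b < x) (f : ℝ → ℝ) :
    ∫ z, f z ∂(twoPt y b x) = ((x - b) * f y + (b - y) * f x) / (x - y) := by
  have h1 : 0 ≤ (x - b) / (x - y) := div_nonneg (by linarith) (by linarith)
  have h2 : 0 ≤ (b - y) / (x - y) := div_nonneg (by linarith) (by linarith)
  unfold twoPt
  rw [integral_add_measure]
  · rw [integral_smul_measure, integral_smul_measure, integral_dirac, integral_dirac,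
      ENNReal.toReal_ofReal h1, ENNReal.toReal_ofReal h2]
    simp only [smul_eq_mul]
    ring
  · exact (integrable_dirac (by simp)).smul_measure (by simp)
  · exact (integrable_dirac (by simp)).smul_measure (by simp)

lemma isStrategy_twoPt {y b x : ℝ} (h0 : 0 ≤ y) (hy : y < b) (hx : b < x) :
    IsStrategy b (twoPt y b x) where
  prob := by
    constructor
    unfold twoPt
    have h1 : 0 ≤ (x - b) / (x - y) := div_nonneg (by linarith) (by linarith)
    have h2 : 0 ≤ (b - y) / (x - y) := div_nonneg (by linarith) (by linarith)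
    simp only [Measure.coe_add, Measure.coe_smul, Pi.add_apply, Pi.smul_apply, measure_univ,
      smul_eq_mul, mul_one]
    rw [← ENNReal.ofReal_add h1 h2, ← add_div, show x - b + (b - y) = x - y by ring,
      div_self (by linarith), ENNReal.ofReal_one]
  nonneg := by
    unfold twoPt
    have hx0 : ¬ x < 0 := by linarith
    have hy0 : ¬ y < 0 := by linarith
    simp only [Measure.coe_add, Measure.coe_smul, Pi.add_apply, Pi.smul_apply, smul_eq_mul]
    rw [Measure.dirac_apply' _ measurableSet_Iio, Measure.dirac_apply' _ measurableSet_Iio]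
    simp [indicator, hx0, hy0]
  integrable := by
    unfold twoPt
    exact ((integrable_dirac (by simp)).smul_measure (by simp)).add_measure
      ((integrable_dirac (by simp)).smul_measure (by simp))
  mean := by
    rw [integral_twoPt hy hx, div_eq_iff (sub_pos.2 (hy.trans hx)).ne']
    ring

/-- contact a.e. -/
lemma ae_contact {φ : ℝ → ℝ} (hφ : Measurable φ) (hφb : ∀ x, |φ x| ≤ 1) {b v lam : ℝ}
    {μ : Measure ℝ} (hμ : IsStrategy b μ) (hl : ∀ x, 0 ≤ x → φ x ≤ v + lam * (x - b))
    (hv : v ≤ ∫ x, φ x ∂μ) : ∀ᵐ x ∂μ, 0 ≤ x ∧ φ x = v + lam * (x - b) := by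
  have hp := hμ.prob
  have hnn : ∀ᵐ x ∂μ, 0 ≤ x := by
    rw [ae_iff]
    simpa [Iio] using hμ.nonneg
  have hφi : Integrable φ μ :=
    Integrable.of_bound hφ.aestronglyMeasurable 1 (Eventually.of_forall hφb)
  have hli : Integrable (fun x => v + lam * (x - b)) μ :=
    (integrable_const v).add ((hμ.integrable.sub (integrable_const b)).const_mul lam)
  have hsi : Integrable (fun x => lam * (x - b)) μ :=
    (hμ.integrable.sub (integrable_const b)).const_mul lam
  have hint : ∫ x, (v + lam * (x - b)) ∂μ = v := by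
    rw [integral_add (integrable_const v) hsi, integral_const_mul,
      integral_sub hμ.integrable (integrable_const b), hμ.mean]
    simp
  have h0 : ∫ x, ((v + lam * (x - b)) - φ x) ∂μ ≤ 0 := by
    rw [integral_sub hli hφi, hint]
    linarith
  have hge : 0 ≤ᵐ[μ] fun x => (v + lam * (x - b)) - φ x := by
    filter_upwards [hnn] with x hx
    have := hl x hx
    simp only [Pi.zero_apply]
    linarith
  have h1 : ∫ x, ((v + lam * (x - b)) - φ x) ∂μ = 0 :=
    le_antisymm h0 (integral_nonneg_of_ae hge)
  have h2 := (integral_eq_zero_iff_of_nonneg_ae hge (hli.sub hφi)).1 h1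
  filter_upwards [hnn, h2] with x hx hx2
  refine ⟨hx, ?_⟩
  simp only [Pi.zero_apply] at hx2
  linarith

lemma integral_le_line {φ : ℝ → ℝ} (hφ : Measurable φ) (hφb : ∀ x, |φ x| ≤ 1) {b v lam : ℝ}
    {μ : Measure ℝ} (hμ : IsStrategy b μ) (hl : ∀ x, 0 ≤ x → φ x ≤ v + lam * (x - b)) :
    ∫ x, φ x ∂μ ≤ v := by
  have hp := hμ.prob
  have hnn : ∀ᵐ x ∂μ, 0 ≤ x := by
    rw [ae_iff]
    simpa [Iio] using hμ.nonneg
  have hφi : Integrable φ μ :=
    Integrable.of_bound hφ.aestronglyMeasurable 1 (Eventually.of_forall hφb)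
  have hli : Integrable (fun x => v + lam * (x - b)) μ :=
    (integrable_const v).add ((hμ.integrable.sub (integrable_const b)).const_mul lam)
  have hsi : Integrable (fun x => lam * (x - b)) μ :=
    (hμ.integrable.sub (integrable_const b)).const_mul lam
  have hint : ∫ x, (v + lam * (x - b)) ∂μ = v := by
    rw [integral_add (integrable_const v) hsi, integral_const_mul,
      integral_sub hμ.integrable (integrable_const b), hμ.mean]
    simp
  calc ∫ x, φ x ∂μ ≤ ∫ x, (v + lam * (x - b)) ∂μ := by
        apply integral_mono_ae hφi hli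
        filter_upwards [hnn] with x hx using hl x hx
    _ = v := hint

end Pool.Agent.Q211.Lotto
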