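import Pool.Agent.Q211.Lotto.Conc

/-! Uniqueness of the aggregate strategy. -/

open MeasureTheory Set ProbabilityTheory Filter Topology

namespace Pool.Agent.Q211.Lotto

/-- `G` is affine on a neighbourhood of `x`. -/
def LocAff (G : ℝ → ℝ) (x : ℝ) : Prop :=
  ∃ ε > 0, ∃ lam : ℝ, ∀ y, |y - x| < ε → G y = G x + lam * (y - x)

lemma locAff_of_contact {G : ℝ → ℝ} (hG : Conc G) {v lam c x y1 y2 : ℝ} (h0 : 0 ≤ y1)
    (h1 : y1 < x) (h2 : x < y2) (hl : ∀ x, 0 ≤ x → G x ≤ v + lam * (x - c))
    (e1 : G y1 = v + lam * (y1 - c)) (e2 : G y2 = v + lam * (y2 - c)) : LocAff G x := by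
  have key : ∀ y, y1 < y → y < y2 → G y = v + lam * (y - c) := by
    intro y hy1 hy2
    apply le_antisymm (hl y (by linarith))
    have h := hG y1 y y2 h0 hy1 hy2
    rw [e1, e2] at h
    have h3 : (y2 - y1) * (v + lam * (y - c)) ≤ (y2 - y1) * G y := by
      calc (y2 - y1) * (v + lam * (y - c))
          = (y2 - y) * (v + lam * (y1 - c)) + (y - y1) * (v + lam * (y2 - c)) := by ring
        _ ≤ _ := h
    exact le_of_mul_le_mul_left h3 (by linarith)
  refine ⟨min (x - y1) (y2 - x), lt_min (by linarith) (by linarith), lam, fun y hy => ?_⟩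
  obtain ⟨ha, hb⟩ := abs_lt.1 hy
  have hm1 := min_le_left (x - y1) (y2 - x)
  have hm2 := min_le_right (x - y1) (y2 - x)
  rw [key y (by linarith) (by linarith), key x h1 h2]
  ring

lemma struct {G : ℝ → ℝ} (hG : Conc G) (hGm : Measurable G) (hGb : ∀ x, |G x| ≤ 1) {c : ℝ}
    (hc : 0 < c) {μ : Measure ℝ} (hμ : IsStrategy c μ) (heq : G c ≤ ∫ x, G x ∂μ) {x : ℝ}
    (hna : ¬ LocAff G x) :
    (c < x → μ (Ioi x) = 0) ∧ (x ≤ c → μ (Iio x) = 0) := by
  have hp := hμ.prob
  obtain ⟨lam, hl⟩ := hG.line hc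
  have hct := ae_contact hGm hGb hμ hl heq
  have hcc : G c = G c + lam * (c - c) := by ring
  constructor
  · intro hcx
    by_contra hne
    obtain ⟨y2, hy2, -, e2⟩ := ((frequently_ae_mem_iff.2 hne).and_eventually hct).exists
    exact hna (locAff_of_contact hG hc.le hcx hy2 hl hcc e2)
  · intro hxc
    by_contra hne
    obtain ⟨y1, hy1, h01, e1⟩ := ((frequently_ae_mem_iff.2 hne).and_eventually hct).exists
    rcases eq_or_lt_of_le hxc with h | h
    · subst h
      have hne2 : μ (Ioi x) ≠ 0 := by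
        intro h0
        apply hne
        have hle : ∀ᵐ y ∂μ, y ≤ x := by
          rw [ae_iff]
          simpa [Ioi] using h0
        have hge : 0 ≤ᵐ[μ] fun y => x - y := by
          filter_upwards [hle] with y hy
          simpa using hy
        have hi : ∫ y, (x - y) ∂μ = 0 := by
          rw [integral_sub (integrable_const x) hμ.integrable, hμ.mean]
          simp
        have h2 := (integral_eq_zero_iff_of_nonneg_ae hge
          ((integrable_const x).sub hμ.integrable)).1 hi
        have h3 : ∀ᵐ y ∂μ, ¬ y < x := by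
          filter_upwards [h2] with y hy
          simp only [Pi.zero_apply] at hy
          linarith
        rw [ae_iff] at h3
        simpa [Iio] using h3
      obtain ⟨y2, hy2, -, e2⟩ := ((frequently_ae_mem_iff.2 hne2).and_eventually hct).exists
      exact hna (locAff_of_contact hG h01 hy1 hy2 hl e1 e2)
    · exact hna (locAff_of_contact hG h01 hy1 h hl e1 hcc)

variable {Ω : Type*} [MeasurableSpace Ω] {P : Measure Ω} [IsProbabilityMeasure P] {b : Ω → ℝ}
  {κ : Kernel Ω ℝ} [IsMarkovKernel κ]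

lemma G_eq_budget {G : ℝ → ℝ} (hG : Conc G) (hGm : Measurable G) (hGb : ∀ x, |G x| ≤ 1)
    (hbm : Measurable b) (hb : ∀ᵐ ω ∂P, 0 < b ω) (h : IsNash P b κ)
    (heq : ∀ᵐ ω ∂P, G (b ω) ≤ ∫ x, G x ∂(κ ω)) {x : ℝ}
    (hna : ¬ LocAff G x) : (κ ∘ₘ P) (Iic x) = P {ω | b ω < x} := by
  have h0 := no_atom hb h
  have hS : MeasurableSet {ω | b ω < x} := measurableSet_lt hbm measurable_const
  have hind : ∫⁻ ω, ({ω | b ω < x}.indicator 1 ω : ENNReal) ∂P = P {ω | b ω < x} := by
    rw [lintegral_indicator_one hS]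
  apply le_antisymm
  · have h1 : (κ ∘ₘ P) (Iic x) ≤ (κ ∘ₘ P) (Iio x) := by
      rw [← Iio_union_right]
      refine (measure_union_le _ _).trans ?_
      rw [h0, add_zero]
    refine h1.trans ?_
    rw [Measure.bind_apply measurableSet_Iio κ.aemeasurable, ← hind]
    apply lintegral_mono_ae
    filter_upwards [hb, h.strat, heq] with ω hω hst he
    by_cases hlt : b ω < x
    · rw [indicator_of_mem (by exact hlt)]
      exact prob_le_one
    · rw [(struct hG hGm hGb hω hst he hna).2 (not_lt.1 hlt)]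
      exact zero_le
  · rw [Measure.bind_apply measurableSet_Iic κ.aemeasurable, ← hind]
    apply lintegral_mono_ae
    filter_upwards [hb, h.strat, heq] with ω hω hst he
    by_cases hlt : b ω < x
    · rw [indicator_of_mem (by exact hlt)]
      have h1 := (struct hG hGm hGb hω hst he hna).1 hlt
      have h2 : κ ω (Iic x) = 1 := by
        rw [← compl_Ioi, prob_compl_eq_one_sub measurableSet_Ioi, h1]
        simp
      rw [h2]
      simp
    · rw [indicator_of_notMem (by exact hlt)]
      exact zero_le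

lemma int_comp (f : ℝ → ℝ) (hf : Measurable f) (hfb : ∀ x, |f x| ≤ 1) :
    Integrable (fun ω => ∫ x, f x ∂(κ ω)) P ∧
      ∫ x, f x ∂(κ ∘ₘ P) = ∫ ω, ∫ x, f x ∂(κ ω) ∂P := by
  have hi : Integrable f (κ ∘ₘ P) :=
    Integrable.of_bound hf.aestronglyMeasurable 1 (Eventually.of_forall hfb)
  rw [Measure.comp_eq_comp_const_apply] at hi ⊢
  refine ⟨?_, ?_⟩
  · have := hi.integral_comp
    rwa [Kernel.const_apply] at this
  · rw [Kernel.integral_comp hi, Kernel.const_apply]

lemma sum_one (g₁ g₂ : Measure ℝ) [IsProbabilityMeasure g₁] [IsProbabilityMeasure g₂]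
    (h₂ : ∀ a, g₂ {a} = 0) :
    ∫ x, g₂.real (Iic x) ∂g₁ + ∫ x, g₁.real (Iic x) ∂g₂ = 1 := by
  set A : Set (ℝ × ℝ) := {p | p.2 ≤ p.1} with hA
  set B : Set (ℝ × ℝ) := {p | p.1 ≤ p.2} with hB
  have hAm : MeasurableSet A := measurableSet_le measurable_snd measurable_fst
  have hBm : MeasurableSet B := measurableSet_le measurable_fst measurable_snd
  have hmono₂ : Monotone fun x => g₂ (Iic x) := fun u v huv => measure_mono (Iic_subset_Iic.2 huv)
  have hmono₁ : Monotone fun x => g₁ (Iic x) := fun u v huv => measure_mono (Iic_subset_Iic.2 huv)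
  have e1 : ∫ x, g₂.real (Iic x) ∂g₁ = ((g₁.prod g₂) A).toReal := by
    rw [Measure.prod_apply hAm]
    simp only [measureReal_def]
    rw [integral_toReal hmono₂.measurable.aemeasurable
      (Eventually.of_forall fun x => measure_lt_top _ _)]
    rfl
  have e2 : ∫ x, g₁.real (Iic x) ∂g₂ = ((g₁.prod g₂) B).toReal := by
    rw [Measure.prod_apply_symm hBm]
    simp only [measureReal_def]
    rw [integral_toReal hmono₁.measurable.aemeasurable
      (Eventually.of_forall fun x => measure_lt_top _ _)]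
    rfl
  have e3 : (g₁.prod g₂) (A ∩ B) = 0 := by
    rw [Measure.prod_apply (hAm.inter hBm)]
    rw [lintegral_eq_zero_iff (measurable_measure_prodMk_left (hAm.inter hBm))]
    refine Eventually.of_forall fun x => ?_
    have : Prod.mk x ⁻¹' (A ∩ B) = {x} := by
      ext y
      simp only [hA, hB, mem_preimage, mem_inter_iff, Set.mem_ofPred_eq, mem_singleton_iff]
      exact ⟨fun h => le_antisymm h.1 h.2, fun h => ⟨h.le, h.ge⟩⟩
    show g₂ (Prod.mk x ⁻¹' (A ∩ B)) = 0
    rw [this, h₂]
  have e4 : A ∪ B = univ := by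
    ext p
    simp only [hA, hB, mem_union, Set.mem_ofPred_eq, mem_univ, iff_true]
    exact le_total _ _
  have e5 := measure_union_add_inter (μ := g₁.prod g₂) A hBm
  rw [e3, e4, measure_univ, add_zero] at e5
  rw [e1, e2, ← ENNReal.toReal_add (measure_ne_top _ _) (measure_ne_top _ _), ← e5]
  simp

end Pool.Agent.Q211.Lotto
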